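import Pool.Agent.H.MP_4792b2_co.A

set_option autoImplicit false

namespace Pool.Agent.Results.MP_4792b2_co.Pigeon

/-- matroid rank function: zero on the empty set, monotone, submodular, at most 1 on points -/
def IsMat {n : ℕ} (r : Finset (Fin n) → ℕ) : Prop :=
  r ∅ = 0 ∧ (∀ X Y, X ⊆ Y → r X ≤ r Y) ∧ (∀ X Y, r (X ∪ Y) + r (X ∩ Y) ≤ r X + r Y) ∧
    ∀ s, r {s} ≤ 1

/-- rank function of the dual matroid -/
def dualRk {n : ℕ} (r : Finset (Fin n) → ℕ) (X : Finset (Fin n)) : ℕ :=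
  X.card + r Xᶜ - r Finset.univ

/-- the independent sets are the sets of distinct representatives of a finite family `A` -/
def Transv {n : ℕ} (r : Finset (Fin n) → ℕ) : Prop :=
  ∃ (m : ℕ) (A : Fin m → Finset (Fin n)), ∀ I : Finset (Fin n), r I = I.card ↔
    ∃ f : I → Fin m, Function.Injective f ∧ ∀ x : I, x.1 ∈ A (f x)

/-- the relation on subsets of `U` -/
def Sim {n : ℕ} (r : Finset (Fin n) → ℕ) (U X X' : Finset (Fin n)) : Prop :=
  ∀ Z ⊆ Uᶜ, (r (X ∪ Z) = (X ∪ Z).card ↔ r (X' ∪ Z) = (X' ∪ Z).card)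

open Pool.Agent.H.MP_4792b2_co Finset in
lemma hall_iff {n m : ℕ} (A : Fin m → Finset (Fin n)) (I : Finset (Fin n)) :
    (∃ f : I → Fin m, Function.Injective f ∧ ∀ x : I, x.1 ∈ A (f x)) ↔
      Hall (fun x => univ.filter fun j => x ∈ A j) I := by
  have := all_card_le_biUnion_card_iff_exists_injective
    (fun x : I => univ.filter fun j => x.1 ∈ A j)
  simp only [mem_filter, mem_univ, true_and] at this
  rw [← this]
  constructor
  · intro h S hS
    have := h (S.subtype (· ∈ I))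
    rw [card_subtype, filter_true_of_mem hS] at this
    refine this.trans (card_le_card fun j => ?_)
    simp only [mem_biUnion, mem_subtype]
    rintro ⟨x, a, b⟩; exact ⟨x.1, a, b⟩
  · intro h s
    have := h (s.map (Function.Embedding.subtype _)) (fun x hx => property_of_mem_map_subtype s hx)
    rw [card_map] at this
    refine this.trans (card_le_card fun j => ?_)
    simp only [mem_biUnion, mem_map]
    rintro ⟨x, ⟨y, a, rfl⟩, b⟩; exact ⟨y, a, b⟩

open Pool.Agent.H.MP_4792b2_co in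
theorem result (l : ℕ) : ∃ p : ℕ, ∀ (n : ℕ) (r : Finset (Fin n) → ℕ), IsMat r → Transv r →
    Transv (dualRk r) → ∀ U : Finset (Fin n), r U + r Uᶜ ≤ l + r Finset.univ →
    ∀ F : Finset (Finset (Fin n)), (∀ X ∈ F, X ⊆ U) →
      (∀ X ∈ F, ∀ X' ∈ F, X ≠ X' → ¬ Sim r U X X') → F.card ≤ p := by
  refine ⟨_, fun n r h ⟨m, A, hA⟩ ⟨m', A', hA'⟩ U hU F h1 h2 =>
    main ⟨h.1, h.2.1, h.2.2.1, h.2.2.2⟩ (fun I => (hA I).trans (hall_iff A I))
      (fun I => (hA' I).trans (hall_iff A' I)) hU F h1 h2⟩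

end Pool.Agent.Results.MP_4792b2_co.Pigeon
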